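import Mathlib
import Pool.Agent.Q223.EU.Hom
import Pool.Agent.Q223.EU.Count

/-!
# The face lattice of a polytope is determined, among Eulerian posets, by all its ranks but one
-/

set_option autoImplicit false

namespace Pool.Agent.Results.MP_492a05_co.DeterminedByOtherRanks

open Module Pool.Agent.Q223.EU Pool.Agent.Q223.PG Pool.Agent.Q223.Poly Pool.Agent.H242R3.ES

/-- the faces of `P` (as a poset under inclusion): the sets exposed by linear functionals, among
them the empty set and `P` itself -/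
abbrev Faces {n : ℕ} (P : Set (EuclideanSpace ℝ (Fin n))) : Type := {F : Set _ // IsExposed ℝ P F}

/-- `rank F = dim F + 1`, and `0` for the empty face -/
noncomputable def rankOf {n : ℕ} (F : Set (EuclideanSpace ℝ (Fin n))) : ℕ :=
  open Classical in if F = ∅ then 0 else finrank ℝ (vectorSpan ℝ F) + 1

/-- `Q` is an Eulerian poset with rank function `ρ` -/
structure IsEulerian (Q : Type) [PartialOrder Q] [BoundedOrder Q] [Finite Q] (ρ : Q → ℕ) : Prop where
  bot : ρ ⊥ = 0
  graded : ∀ x y : Q, x ⋖ y → ρ y = ρ x + 1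
  euler : ∀ x y : Q, x < y →
    {z | x ≤ z ∧ z ≤ y ∧ Even (ρ z)}.ncard = {z | x ≤ z ∧ z ≤ y ∧ Odd (ρ z)}.ncard

/-- For a polytope `P` of dimension at least `r + 2` (`r ≥ 1`), every Eulerian poset `Q` whose
elements of rank different from `r + 1` (dimension different from `r`) are identified by `φ` with
the faces of `P` of dimension different from `r`, with the same ranks and the same order, is
isomorphic to the face lattice of `P` by an isomorphism extending `φ`. -/
theorem result : ∀ (n : ℕ) (S : Set (EuclideanSpace ℝ (Fin n))) (P : Set (EuclideanSpace ℝ (Fin n))),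
    S.Finite → P = convexHull ℝ S → ∀ r : ℕ, 1 ≤ r → r + 2 ≤ finrank ℝ (vectorSpan ℝ P) →
    ∀ (Q : Type) [PartialOrder Q] [BoundedOrder Q] [Finite Q] (ρ : Q → ℕ), IsEulerian Q ρ →
    ∀ φ : {F : Faces P // rankOf F.1 ≠ r + 1} ≃o {q : Q // ρ q ≠ r + 1},
      (∀ F, ρ (φ F).1 = rankOf F.1.1) →
      ∃ Ψ : Faces P ≃o Q, ∀ (F : Faces P) (h : rankOf F.1 ≠ r + 1), Ψ F = (φ ⟨F, h⟩).1 := by
  classical
  intro n S P hS hP r hr hd Q _ _ _ ρ hQ φ hφ
  cases nonempty_fintype Q
  have hSne : S.Nonempty := by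
    by_contra hne
    rw [Set.not_nonempty_iff_eq_empty] at hne
    rw [hP, hne, convexHull_empty, vectorSpan_empty, finrank_bot] at hd
    omega
  obtain ⟨hfin, hne, hV, hhull⟩ := conf_polytope hS hSne
  set X : Set (EuclideanSpace ℝ (Fin n)) := (convexHull ℝ S).extremePoints ℝ with hX
  have : Fintype X := hfin.fintype
  set V : X → EuclideanSpace ℝ (Fin n) := fun v => (v : EuclideanSpace ℝ (Fin n)) with hVdef
  have hrange : Set.range V = X := Subtype.range_val
  have hPV : P = convexHull ℝ (Set.range V) := by rw [hrange, hhull, hP]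
  clear hP
  subst hPV
  set Θ := iso hV with hΘ
  have hrk : ∀ F : Faces (convexHull ℝ (Set.range V)), frk (hm V) (Θ F) = rankOf F.1 := by
    intro F
    rw [hΘ, frk_iso hV F]
    rfl
  -- bounded order on the faces of the cone
  have hPne : (convexHull ℝ (Set.range V)).Nonempty := by
    rw [convexHull_nonempty_iff, hrange]; exact hne
  have hXne : Nonempty X := hne.to_subtype
  have htop : Face (hm V) (Set.univ : Set X) := by
    rw [face_hm_iff]
    exact ⟨0, 0, fun i _ => by simp, fun i hi => absurd (Set.mem_univ i) hi⟩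
  have hbot : Face (hm V) (∅ : Set X) := by
    rw [face_hm_iff]
    exact ⟨0, 1, fun i hi => absurd hi (Set.notMem_empty i), fun i _ => by simp⟩
  let _ : BoundedOrder (FL (hm V)) :=
    { top := ⟨Set.univ, htop⟩
      le_top := fun a => Set.subset_univ _
      bot := ⟨∅, hbot⟩
      bot_le := fun a => Set.empty_subset _ }
  have : Fintype (FL (hm V)) := Fintype.ofFinite _
  have hbL : frk (hm V) (⊥ : FL (hm V)) = 0 := by
    show rk (hm V) ∅ = 0
    simp [rk]
  have htL : r + 3 ≤ frk (hm V) (⊤ : FL (hm V)) := by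
    show r + 3 ≤ rk (hm V) Set.univ
    rw [rk_hm Set.univ_nonempty, Set.image_univ]
    rw [vectorSpan_hull] at hd
    omega
  have hE : Eul Q ρ := ⟨hQ.graded, fun x y hxy => by
    have := hQ.euler x y hxy
    rw [Set.ncard_eq_toFinset_card', Set.ncard_eq_toFinset_card'] at this
    convert this using 2
    · ext z; simp
    · ext z; simp⟩
  let g : FL (hm V) → Q := fun x =>
    if h : rankOf (Θ.symm x).1 ≠ r + 1 then (φ ⟨Θ.symm x, h⟩).1 else ⊥
  have hrk' : ∀ x : FL (hm V), frk (hm V) x = rankOf (Θ.symm x).1 := by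
    intro x
    rw [← hrk (Θ.symm x), OrderIso.apply_symm_apply]
  have hgx : ∀ x (h : rankOf (Θ.symm x).1 ≠ r + 1), g x = (φ ⟨Θ.symm x, h⟩).1 := by
    intro x h
    simp only [g, dif_pos h]
  have hagr : Agr (FL (hm V)) Q (frk (hm V)) ρ r g := by
    refine ⟨?_, ?_, ?_⟩
    · intro x y hx hy
      rw [hrk'] at hx hy
      rw [hgx x hx, hgx y hy, Subtype.coe_le_coe, OrderIso.le_iff_le, Subtype.mk_le_mk,
        OrderIso.le_iff_le]
    · intro x hx
      rw [hrk'] at hx ⊢
      rw [hgx x hx, hφ]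
    · intro q hq
      have h1 : rankOf (φ.symm ⟨q, hq⟩).1.1 ≠ r + 1 := (φ.symm ⟨q, hq⟩).2
      refine ⟨Θ (φ.symm ⟨q, hq⟩).1, ?_, ?_⟩
      · rw [hrk]; exact h1
      · rw [hgx _ (by rw [OrderIso.symm_apply_apply]; exact h1)]
        have h2 : (⟨Θ.symm (Θ (φ.symm ⟨q, hq⟩).1), by rw [OrderIso.symm_apply_apply]; exact h1⟩ :
            {F : Faces (convexHull ℝ (Set.range V)) // rankOf F.1 ≠ r + 1}) = φ.symm ⟨q, hq⟩ := by
          apply Subtype.ext
          exact OrderIso.symm_apply_apply Θ _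
        rw [h2, OrderIso.apply_symm_apply]
  obtain ⟨Ψ, hΨ⟩ := exists_iso (polyLike (V := hm V)) hE hr hbL hQ.bot htL hagr
  refine ⟨Θ.trans Ψ, fun F h => ?_⟩
  rw [OrderIso.trans_apply, hΨ (Θ F) (by rw [hrk]; exact h),
    hgx _ (by rw [OrderIso.symm_apply_apply]; exact h)]
  have h2 : (⟨Θ.symm (Θ F), by rw [OrderIso.symm_apply_apply]; exact h⟩ :
      {F : Faces (convexHull ℝ (Set.range V)) // rankOf F.1 ≠ r + 1}) = ⟨F, h⟩ := by
    apply Subtype.ext
    exact OrderIso.symm_apply_apply Θ F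
  rw [h2]

end Pool.Agent.Results.MP_492a05_co.DeterminedByOtherRanks
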